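import Pool.Agent.Y944.AG.Base

/-!
# Tree sizes and decay rate of the two-dimensional arboreal gas

Let `T_i` be the tree of `i` under the arboreal gas on the torus `(ℤ/L)²` with parameter `β > 0`.
Its expected size is bounded uniformly in `L`, at every `β`, by `exp (A (1 + β²))`, and it is at
least `e⁻² β²` for `L > β`. The decay rate `m(β)` of the problem is between `exp (- A (1 + β²))` and
`log (1 + 1/β)`. With high probability all trees have at most `O(log² L)` vertices.

The definitions of the torus, of the forests and of the connection probabilities, and the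
exponential decay of the connection probabilities, are those of the starting file `MassGap`.
-/

set_option autoImplicit false

namespace Pool.Agent.Results.MP_a51497_pr.TreeSizes

open Pool.Agent.Results.MP_a51497_pr.MassGap Pool.Agent.Y944.AG

/-- **Tree sizes of the two-dimensional arboreal gas.** -/
theorem result : ∃ A : ℝ, 0 < A ∧ ∀ β : ℝ, 0 < β →
      (Real.exp (-(A * (1 + β ^ 2))) ≤ rate β ∧ rate β ≤ Real.log (1 + 1 / β)) ∧
      (∀ (L : ℕ) [NeZero L] (i : Vtx L), treeSize β L i ≤ Real.exp (A * (1 + β ^ 2))) ∧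
      (∀ (L : ℕ) [NeZero L] (i : Vtx L), β < L → Real.exp (-2) * β ^ 2 ≤ treeSize β L i) ∧
      (∀ (L : ℕ) [NeZero L] (i j : Vtx L),
        (β / (1 + β)) ^ ((torus L).dist i j) ≤ conn β L i j ∧
        conn β L i j ≤
          2 * Real.exp (-(Real.exp (-(A * (1 + β ^ 2))) * ((torus L).dist i j : ℝ)))) ∧
      (∀ (L : ℕ) [NeZero L] (t : ℕ),
        pr β L (fun F => ∃ i, (2 * t + 1) ^ 2 < Set.ncard {j : Vtx L |
          (SimpleGraph.fromEdgeSet (F : Set (Sym2 (Vtx L)))).Reachable i j}) ≤
        2 * (L : ℝ) ^ 4 * Real.exp (-(Real.exp (-(A * (1 + β ^ 2))) * t))) :=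
  main_of MassGap.result

end Pool.Agent.Results.MP_a51497_pr.TreeSizes
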